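import Mathlib

open scoped ENNReal NNReal
open Metric Set

namespace Pool.Agent.H296.IL

variable {X : Type*} [NormedAddCommGroup X] [NormedSpace ℂ X]

/-- The glocal spectral subspace of `T` attached to a set `F`: the vectors `x` for which there is
an analytic function `f` on the complement of `F` with `(T - z) f z = x`. -/
def glocal (T : X →L[ℂ] X) (F : Set ℂ) : Set X :=
  {x | ∃ f : ℂ → X, AnalyticOnNhd ℂ f Fᶜ ∧ ∀ z ∈ Fᶜ, T (f z) - z • f z = x}

/-- The inner local spectral radius of `T` at `x`: the supremum of the radii `r` such that `x`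
lies in the glocal spectral subspace of the complement of the open disc of radius `r`. -/
noncomputable def iota (T : X →L[ℂ] X) (x : X) : ℝ≥0∞ :=
  ⨆ (r : ℝ≥0) (_ : x ∈ glocal T (Metric.ball (0 : ℂ) r)ᶜ), (r : ℝ≥0∞)

/-- Local solution on the open disc of radius `r`. -/
def Sol (T : X →L[ℂ] X) (x : X) (r : ℝ) : Prop :=
  ∃ f : ℂ → X, AnalyticOnNhd ℂ f (ball 0 r) ∧ ∀ z ∈ ball (0 : ℂ) r, T (f z) - z • f z = x

lemma mem_glocal_iff {T : X →L[ℂ] X} {x : X} {r : ℝ} :
    x ∈ glocal T (Metric.ball (0 : ℂ) r)ᶜ ↔ Sol T x r := by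
  simp [glocal, Sol, compl_compl]

lemma le_iota {T : X →L[ℂ] X} {x : X} {r : ℝ} (hr : 0 ≤ r) (h : Sol T x r) :
    ENNReal.ofReal r ≤ iota T x := by
  unfold iota
  refine le_iSup₂_of_le r.toNNReal ?_ ?_
  · rw [mem_glocal_iff, Real.coe_toNNReal r hr]; exact h
  · rfl

lemma lt_iota {T : X →L[ℂ] X} {x : X} {c : ℝ≥0∞} (h : c < iota T x) :
    ∃ r : ℝ, 0 < r ∧ c < ENNReal.ofReal r ∧ Sol T x r := by
  unfold iota at h
  rw [lt_iSup_iff] at h
  obtain ⟨r, h⟩ := h
  rw [lt_iSup_iff] at h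
  obtain ⟨hm, h⟩ := h
  rw [mem_glocal_iff] at hm
  refine ⟨r, ?_, ?_, hm⟩
  · have : (0 : ℝ≥0∞) < r := lt_of_le_of_lt (zero_le) h
    exact_mod_cast this
  · simpa using h

lemma iota_pos_iff {T : X →L[ℂ] X} {x : X} : 0 < iota T x ↔ ∃ r : ℝ, 0 < r ∧ Sol T x r := by
  constructor
  · intro h
    obtain ⟨r, hr, -, hs⟩ := lt_iota h
    exact ⟨r, hr, hs⟩
  · rintro ⟨r, hr, hs⟩
    exact lt_of_lt_of_le (ENNReal.ofReal_pos.2 hr) (le_iota hr.le hs)

lemma sol_mono {T : X →L[ℂ] X} {x : X} {r s : ℝ} (hrs : s ≤ r) (h : Sol T x r) : Sol T x s := by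
  obtain ⟨f, hf, h⟩ := h
  exact ⟨f, hf.mono (ball_subset_ball hrs), fun z hz => h z (ball_subset_ball hrs hz)⟩

/-- if `x` is not in the range then the inner radius is zero -/
lemma iota_eq_zero_of_not_range {T : X →L[ℂ] X} {x : X} (h : ∀ z, T z ≠ x) : iota T x = 0 := by
  by_contra hne
  obtain ⟨r, hr, f, -, hf⟩ := iota_pos_iff.1 (pos_iff_ne_zero.2 hne)
  have := hf 0 (by simpa using hr)
  simp at this
  exact h _ this

lemma iota_eq_zero_of_dual {T : X →L[ℂ] X} {x : X} (f : X →L[ℂ] ℂ) (hf : ∀ z, f (T z) = 0)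
    (hx : f x ≠ 0) : iota T x = 0 :=
  iota_eq_zero_of_not_range fun z hz => hx (by rw [← hz]; exact hf z)

/-- quadratic relation -/
lemma sol_of_quad {T : X →L[ℂ] X} {x : X} {a b : ℂ} {r : ℝ}
    (h : T (T x) = a • x + b • T x) (hne : ∀ z ∈ ball (0 : ℂ) r, a + b * z - z ^ 2 ≠ 0) :
    Sol T x r := by
  refine ⟨fun z => (a + b * z - z ^ 2)⁻¹ • (T x + (z - b) • x), ?_, ?_⟩
  · intro z hz
    refine AnalyticAt.smul (AnalyticAt.inv ?_ (hne z hz)) ?_
    · fun_prop
    · fun_prop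
  · intro z hz
    have h1 : T (T x + (z - b) • x) - z • (T x + (z - b) • x) = (a + b * z - z ^ 2) • x := by
      rw [map_add, map_smul, h]
      module
    calc T ((a + b * z - z ^ 2)⁻¹ • (T x + (z - b) • x))
          - z • ((a + b * z - z ^ 2)⁻¹ • (T x + (z - b) • x))
        = (a + b * z - z ^ 2)⁻¹ • (T (T x + (z - b) • x) - z • (T x + (z - b) • x)) := by
          rw [map_smul, smul_sub, smul_comm z]
      _ = x := by rw [h1, smul_smul, inv_mul_cancel₀ (hne z hz), one_smul]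

lemma iota_pos_of_quad {T : X →L[ℂ] X} {x : X} {a b : ℂ}
    (h : T (T x) = a • x + b • T x) (ha : a ≠ 0) : 0 < iota T x := by
  have hc : ContinuousAt (fun z : ℂ => a + b * z - z ^ 2) 0 := by fun_prop
  have hne : ∀ᶠ z in nhds (0 : ℂ), a + b * z - z ^ 2 ≠ 0 :=
    hc.eventually_ne (by simpa using ha)
  obtain ⟨r, hr, hb⟩ := Metric.eventually_nhds_iff_ball.1 hne
  exact iota_pos_iff.2 ⟨r, hr, sol_of_quad h hb⟩

lemma iota_pos_of_eigen {T : X →L[ℂ] X} {x : X} {a : ℂ}
    (h : T x = a • x) (ha : a ≠ 0) : 0 < iota T x := by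
  refine iota_pos_of_quad (a := a * a) (b := 0) ?_ (mul_ne_zero ha ha)
  rw [h, map_smul, h]; module

lemma le_iota_of_sq {T : X →L[ℂ] X} {x : X} {ρ : ℝ} (hρ : 0 ≤ ρ)
    (h : T (T x) = ((ρ : ℂ) ^ 2) • x) : ENNReal.ofReal ρ ≤ iota T x := by
  refine le_iota hρ (sol_of_quad (a := (ρ : ℂ) ^ 2) (b := 0) (by rw [h]; simp) ?_)
  intro z hz h0
  have h1 : z ^ 2 = (ρ : ℂ) ^ 2 := by linear_combination -h0
  have h2 : ‖z‖ ^ 2 = ρ ^ 2 := by
    rw [← norm_pow, h1, norm_pow]; simp
  have h3 : ‖z‖ = ρ := by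
    have := abs_eq_abs.2 (sq_eq_sq_iff_eq_or_eq_neg.1 h2)
    rwa [abs_of_nonneg (norm_nonneg z), abs_of_nonneg hρ] at this
  rw [mem_ball_zero_iff, h3] at hz
  exact lt_irrefl _ hz

lemma iota_smul_one {x : X} (hx : x ≠ 0) (c : ℂ) :
    iota (c • (1 : X →L[ℂ] X)) x = ENNReal.ofReal ‖c‖ := by
  apply le_antisymm
  · by_contra hlt
    rw [not_le] at hlt
    obtain ⟨r, hr, hcr, f, -, hf⟩ := lt_iota hlt
    have h1 : ‖c‖ < r := (ENNReal.ofReal_lt_ofReal_iff hr).1 hcr
    have := hf c (by simpa using h1)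
    simp at this
    exact hx this.symm
  · refine le_iota (norm_nonneg c) ⟨fun z => (c - z)⁻¹ • x, ?_, ?_⟩
    · intro z hz
      have hne : c - z ≠ 0 := by
        rintro h0
        rw [sub_eq_zero] at h0
        rw [mem_ball_zero_iff, h0] at hz
        exact lt_irrefl _ hz
      exact AnalyticAt.smul (AnalyticAt.inv (by fun_prop) hne) (by fun_prop)
    · intro z hz
      have hne : c - z ≠ 0 := by
        rintro h0
        rw [sub_eq_zero] at h0
        rw [mem_ball_zero_iff, h0] at hz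
        exact lt_irrefl _ hz
      simp only [smul_apply, one_apply_eq_self]
      rw [smul_smul, smul_smul, ← sub_smul, ← sub_mul, mul_inv_cancel₀ hne, one_smul]

lemma iota_zero {x : X} (hx : x ≠ 0) : iota (0 : X →L[ℂ] X) x = 0 := by
  have := iota_smul_one hx 0
  simpa using this

/-- shifting by a scalar -/
lemma iota_pos_of_shift {T : X →L[ℂ] X} {x : X} {c : ℂ}
    (h : ENNReal.ofReal ‖c‖ < iota (c • (1 : X →L[ℂ] X) + T) x) : 0 < iota T x := by
  obtain ⟨r, hr, hcr, f, hfa, hf⟩ := lt_iota h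
  have h1 : ‖c‖ < r := (ENNReal.ofReal_lt_ofReal_iff hr).1 hcr
  have hmem : ∀ z ∈ ball (0 : ℂ) (r - ‖c‖), z + c ∈ ball (0 : ℂ) r := by
    intro z hz
    rw [mem_ball_zero_iff] at hz ⊢
    calc ‖z + c‖ ≤ ‖z‖ + ‖c‖ := norm_add_le _ _
      _ < r := by linarith
  refine iota_pos_iff.2 ⟨r - ‖c‖, by linarith, fun z => f (z + c), ?_, ?_⟩
  · intro z hz
    exact (hfa (z + c) (hmem z hz)).comp_of_eq (by fun_prop) rfl
  · intro z hz
    have := hf (z + c) (hmem z hz)
    simp only [add_apply, smul_apply,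
      one_apply_eq_self] at this
    rw [← this]; module

lemma iota_smul_unimod {T : X →L[ℂ] X} {x : X} {c : ℂ} (hc : ‖c‖ = 1) :
    iota (c • T) x = iota T x := by
  have key : ∀ (c : ℂ) (T : X →L[ℂ] X) (r : ℝ), ‖c‖ = 1 → Sol T x r → Sol (c • T) x r := by
    intro c T r hc ⟨f, hfa, hf⟩
    have hc0 : c ≠ 0 := by rintro rfl; simp at hc
    have hmem : ∀ z ∈ ball (0 : ℂ) r, c⁻¹ * z ∈ ball (0 : ℂ) r := by
      intro z hz
      rw [mem_ball_zero_iff] at hz ⊢
      rwa [norm_mul, norm_inv, hc, inv_one, one_mul]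
    refine ⟨fun z => c⁻¹ • f (c⁻¹ * z), ?_, ?_⟩
    · intro z hz
      exact AnalyticAt.smul (by fun_prop) ((hfa _ (hmem z hz)).comp_of_eq (by fun_prop) rfl)
    · intro z hz
      have := hf _ (hmem z hz)
      simp only [smul_apply, map_smul]
      rw [smul_smul, inv_mul_cancel₀ hc0, one_smul, smul_smul, mul_comm z c⁻¹]
      exact this
  have key2 : ∀ (r : ℝ≥0), x ∈ glocal (c • T) (Metric.ball (0 : ℂ) r)ᶜ ↔
      x ∈ glocal T (Metric.ball (0 : ℂ) r)ᶜ := by
    intro r
    rw [mem_glocal_iff, mem_glocal_iff]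
    constructor
    · intro h
      have hc0 : c ≠ 0 := by rintro rfl; simp at hc
      have := key c⁻¹ (c • T) r (by rw [norm_inv, hc, inv_one]) h
      rwa [smul_smul, inv_mul_cancel₀ hc0, one_smul] at this
    · exact key c T r hc
  unfold iota
  simp only [key2]

/-- Rank one perturbation -/
lemma rankone_pert {T : X →L[ℂ] X} {x : X} (h : 0 < iota T x) :
    ∃ y, T y = x ∧ ∀ g : X →L[ℂ] ℂ, iota (T - g.smulRight x) x = 0 → g y = 1 := by
  obtain ⟨r, hr, f, hfa, hf⟩ := iota_pos_iff.1 h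
  have h0 : T (f 0) = x := by
    have := hf 0 (by simpa using hr)
    simpa using this
  refine ⟨f 0, h0, ?_⟩
  intro g hg
  by_contra hne
  have hcont : ContinuousAt (fun z => 1 - g (f z)) 0 := by
    have : ContinuousAt f 0 := (hfa 0 (by simpa using hr)).continuousAt
    exact continuousAt_const.sub (g.continuous.continuousAt.comp this)
  have hne' : ∀ᶠ z in nhds (0 : ℂ), 1 - g (f z) ≠ 0 :=
    hcont.eventually_ne (by simpa [sub_eq_zero] using fun h => hne h.symm)
  obtain ⟨s, hs, hb⟩ := Metric.eventually_nhds_iff_ball.1 hne'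
  have : 0 < iota (T - g.smulRight x) x := by
    refine iota_pos_iff.2 ⟨min r s, lt_min hr hs, fun z => (1 - g (f z))⁻¹ • f z, ?_, ?_⟩
    · intro z hz
      have hz1 := ball_subset_ball (min_le_left r s) hz
      have hz2 := ball_subset_ball (min_le_right r s) hz
      have ha := hfa z hz1
      have hga : AnalyticAt ℂ (fun z => g (f z)) z := (g.analyticAt _).comp ha
      exact AnalyticAt.smul (AnalyticAt.inv (analyticAt_const.sub hga) (hb z hz2)) ha
    · intro z hz
      have hz1 := ball_subset_ball (min_le_left r s) hz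
      have hz2 := ball_subset_ball (min_le_right r s) hz
      have h1 := hf z hz1
      have h2 := hb z hz2
      have h3 : T (f z) = x + z • f z := by rw [← h1]; abel
      simp only [sub_apply, ContinuousLinearMap.smulRight_apply, map_smul, h3]
      have : (1 - g (f z))⁻¹ • (x + z • f z - g (f z) • x)
          - z • ((1 - g (f z))⁻¹ • f z) = ((1 - g (f z))⁻¹ * (1 - g (f z))) • x := by
        module
      rw [this, inv_mul_cancel₀ h2, one_smul]
  exact this.ne' hg

/-- injective case -/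
lemma rankone_inj {T : X →L[ℂ] X} {x z : X} (hT : Function.Injective T) (hz : T z = x)
    (g : X →L[ℂ] ℂ) (hg : g z = 1) : iota (T - g.smulRight x) x = 0 := by
  refine iota_eq_zero_of_not_range fun w hw => ?_
  simp only [sub_apply, ContinuousLinearMap.smulRight_apply] at hw
  have h1 : T w = T ((1 + g w) • z) := by
    rw [map_smul, hz, ← sub_eq_zero]
    have : T w - (1 + g w) • x = (T w - g w • x) - x := by module
    rw [this, hw, sub_self]
  have h2 := hT h1
  have h3 : g w = (1 + g w) * g z := by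
    conv_lhs => rw [h2]
    rw [map_smul, smul_eq_mul]
  rw [hg, mul_one] at h3
  have : (0 : ℂ) = 1 := by linear_combination h3
  exact zero_ne_one this

end Pool.Agent.H296.IL
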