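import Pool.Agent.H296.IL.Basic

open scoped ENNReal NNReal
open Metric Set

namespace Pool.Agent.H296.IL

variable {X : Type*} [NormedAddCommGroup X] [NormedSpace ℂ X]

lemma exists_dual {ι : Type*} [Fintype ι] [DecidableEq ι] (e : ι → X)
    (he : LinearIndependent ℂ e) (c : ι → ℂ) : ∃ g : X →L[ℂ] ℂ, ∀ i, g (e i) = c i := by
  have hinj : Function.Injective (Fintype.linearCombination ℂ e) :=
    linearIndependent_iff_injective_fintypeLinearCombination.1 he
  obtain ⟨g, hg⟩ := (SeparatingDual.dualMap_surjective_iff (R := ℂ) (V := X)).2 hinj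
    (Fintype.linearCombination ℂ c)
  refine ⟨g, fun i => ?_⟩
  have := LinearMap.congr_fun hg (Pi.single i 1)
  simpa using this

lemma li2 {x y : X} (hx : x ≠ 0) (hy : ∀ a : ℂ, y ≠ a • x) : LinearIndependent ℂ ![x, y] := by
  rw [LinearIndependent.pair_iff]
  intro s t h
  by_cases ht : t = 0
  · subst ht
    simp only [zero_smul, add_zero, smul_eq_zero] at h
    exact ⟨h.resolve_right hx, rfl⟩
  · exfalso
    apply hy (-(t⁻¹ * s))
    have : t • y = -(s • x) := by rw [← sub_eq_zero]; rw [← h]; abel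
    calc y = t⁻¹ • (t • y) := by rw [smul_smul, inv_mul_cancel₀ ht, one_smul]
      _ = _ := by rw [this]; module

lemma li3 {x y z : X} (hx : x ≠ 0) (hy : ∀ a : ℂ, y ≠ a • x)
    (hz : ∀ a b : ℂ, z ≠ a • x + b • y) : LinearIndependent ℂ ![x, y, z] := by
  rw [Fintype.linearIndependent_iff]
  intro g hg
  simp only [Fin.sum_univ_three, Matrix.cons_val_zero, Matrix.cons_val_one,
    Matrix.cons_val_two, Matrix.tail_cons, Matrix.head_cons] at hg
  have h2 : g 2 = 0 := by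
    by_contra hne
    apply hz (-((g 2)⁻¹ * g 0)) (-((g 2)⁻¹ * g 1))
    have : g 2 • z = -(g 0 • x) - g 1 • y := by rw [← sub_eq_zero]; rw [← hg]; abel
    calc z = (g 2)⁻¹ • (g 2 • z) := by rw [smul_smul, inv_mul_cancel₀ hne, one_smul]
      _ = _ := by rw [this]; module
  have h3 : g 0 = 0 ∧ g 1 = 0 := by
    have := LinearIndependent.pair_iff.1 (li2 hx hy) (g 0) (g 1) (by simpa [h2] using hg)
    exact this
  intro i
  fin_cases i
  · exact h3.1
  · exact h3.2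
  · exact h2

lemma dual2 {x y : X} (hx : x ≠ 0) (hy : ∀ a : ℂ, y ≠ a • x) (a b : ℂ) :
    ∃ g : X →L[ℂ] ℂ, g x = a ∧ g y = b := by
  obtain ⟨g, hg⟩ := exists_dual _ (li2 hx hy) ![a, b]
  exact ⟨g, by simpa using hg 0, by simpa using hg 1⟩

lemma dual3 {x y z : X} (hx : x ≠ 0) (hy : ∀ a : ℂ, y ≠ a • x)
    (hz : ∀ a b : ℂ, z ≠ a • x + b • y) (a b c : ℂ) :
    ∃ g : X →L[ℂ] ℂ, g x = a ∧ g y = b ∧ g z = c := by
  obtain ⟨g, hg⟩ := exists_dual _ (li3 hx hy hz) ![a, b, c]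
  exact ⟨g, by simpa using hg 0, by simpa using hg 1, by simpa using hg 2⟩

/-- prescribe two values of an operator, keeping functionals -/
lemma ext2 (T : X →L[ℂ] X) {x y : X} (hx : x ≠ 0) (hy : ∀ a : ℂ, y ≠ a • x) (u v : X) :
    ∃ S : X →L[ℂ] X, S x = u ∧ S y = v ∧
      ∀ f : X →L[ℂ] ℂ, f u = f (T x) → f v = f (T y) → ∀ z, f (S z) = f (T z) := by
  obtain ⟨e1, h11, h12⟩ := dual2 hx hy 1 0
  obtain ⟨e2, h21, h22⟩ := dual2 hx hy 0 1
  refine ⟨T + e1.smulRight (u - T x) + e2.smulRight (v - T y), ?_, ?_, ?_⟩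
  · simp [h11, h21]
  · simp [h12, h22]
  · intro f hu hv z
    simp [hu, hv]

lemma ext3 (T : X →L[ℂ] X) {x y z : X} (hx : x ≠ 0) (hy : ∀ a : ℂ, y ≠ a • x)
    (hz : ∀ a b : ℂ, z ≠ a • x + b • y) (u v w : X) :
    ∃ S : X →L[ℂ] X, S x = u ∧ S y = v ∧ S z = w ∧
      ∀ f : X →L[ℂ] ℂ, f u = f (T x) → f v = f (T y) → f w = f (T z) →
        ∀ z, f (S z) = f (T z) := by
  obtain ⟨e1, h11, h12, h13⟩ := dual3 hx hy hz 1 0 0
  obtain ⟨e2, h21, h22, h23⟩ := dual3 hx hy hz 0 1 0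
  obtain ⟨e3, h31, h32, h33⟩ := dual3 hx hy hz 0 0 1
  refine ⟨T + e1.smulRight (u - T x) + e2.smulRight (v - T y) + e3.smulRight (w - T z),
    ?_, ?_, ?_, ?_⟩
  · simp [h11, h21, h31]
  · simp [h12, h22, h32]
  · simp [h13, h23, h33]
  · intro f hu hv hw z
    simp [hu, hv, hw]

lemma eq_zero_of_dual {x v : X} (hx : x ≠ 0) (h : ∀ f : X →L[ℂ] ℂ, f x = 1 → f v = 0) :
    v = 0 := by
  by_contra hv
  obtain ⟨f, h1, h2⟩ := SeparatingDual.exists_eq_one_ne_zero_of_ne_zero_pair (R := ℂ) hx hv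
  exact h2 (h f h1)

lemma scalar_of_dual {x0 : X} (hx0 : x0 ≠ 0) (R : X →L[ℂ] X)
    (h : ∀ f : X →L[ℂ] ℂ, f x0 = 1 → ∀ z, f z = 0 → f (R z) = 0) :
    ∃ c : ℂ, R = c • (1 : X →L[ℂ] X) := by
  have h1 : ∀ f : X →L[ℂ] ℂ, f x0 = 1 → ∀ z, f (R z) = f (R x0) * f z := by
    intro f hf z
    have := h f hf (z - f z • x0) (by simp [hf])
    rw [map_sub, map_sub, map_smul, map_smul, smul_eq_mul, sub_eq_zero] at this
    rw [this, mul_comm]
  obtain ⟨f0, hf0⟩ := SeparatingDual.exists_eq_one (R := ℂ) hx0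
  refine ⟨f0 (R x0), ?_⟩
  ext z
  rw [← sub_eq_zero]
  apply eq_zero_of_dual hx0
  intro f hf
  have h2 : f (R x0) = f0 (R x0) ∨ ∀ z, f z = f0 z := by
    by_contra hcon
    push Not at hcon
    obtain ⟨hne, z, hz⟩ := hcon
    have h3 := h1 ((2 : ℂ)⁻¹ • (f + f0)) (by simp [hf, hf0]; norm_num) z
    simp only [smul_apply, add_apply, smul_eq_mul] at h3
    rw [h1 f hf z, h1 f0 hf0 z] at h3
    have h4 : (f (R x0) - f0 (R x0)) * (f z - f0 z) = 0 := by linear_combination 4 * h3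
    rcases mul_eq_zero.1 h4 with h5 | h5
    · exact hne (sub_eq_zero.1 h5)
    · exact hz (sub_eq_zero.1 h5)
  simp only [map_sub, smul_apply, one_apply_eq_self, map_smul, smul_eq_mul]
  rw [h1 f hf z]
  rcases h2 with h2 | h2
  · rw [h2]; ring
  · rw [h2 (R x0)]; ring

lemma scalar_char {x0 : X} (hx0 : x0 ≠ 0) (R : X →L[ℂ] X) :
    (∃ c : ℂ, R = c • (1 : X →L[ℂ] X)) ↔
      (iota R x0 ≠ ∞ ∧ ∀ S : X →L[ℂ] X, iota S x0 = 0 → iota (R + S) x0 ≤ iota R x0) := by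
  constructor
  · rintro ⟨c, rfl⟩
    refine ⟨?_, ?_⟩
    · rw [iota_smul_one hx0]; exact ENNReal.ofReal_ne_top
    · intro S hS
      by_contra hlt
      rw [not_le, iota_smul_one hx0] at hlt
      exact (iota_pos_of_shift hlt).ne' hS
  · rintro ⟨hfin, hS⟩
    by_contra hns
    have : ¬ ∀ f : X →L[ℂ] ℂ, f x0 = 1 → ∀ z, f z = 0 → f (R z) = 0 :=
      fun h => hns (scalar_of_dual hx0 R h)
    push Not at this
    obtain ⟨f, hf, z, hz, hRz⟩ := this
    set x1 : X := (f (R z))⁻¹ • z with hx1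
    have hf1 : f x1 = 0 := by simp [hx1, hz]
    have hR1 : f (R x1) = 1 := by simp [hx1, hRz]
    have hind : ∀ a : ℂ, x1 ≠ a • x0 := by
      intro a ha
      have h0 : a = 0 := by
        have := congrArg f ha
        simpa [hf1, hf] using this.symm
      rw [ha, h0] at hR1
      simp at hR1
    set α : ℂ := f (R x0) with hα
    set ρ : ℝ := (iota R x0).toReal + 1 with hρ
    have hρ0 : 0 ≤ ρ := by positivity
    obtain ⟨M, hM0, hM1, hMf⟩ := ext2 R hx0 hind (α • x0 + ((ρ : ℂ) ^ 2 - α ^ 2) • x1)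
      (x0 - α • x1)
    have hMf' := hMf f (by simp [hf, hf1, hα]) (by simp [hf, hf1, hR1])
    have hM2 : M (M x0) = ((ρ : ℂ) ^ 2) • x0 := by
      rw [hM0, map_add, map_smul, map_smul, hM0, hM1]; module
    have h1 := le_iota_of_sq hρ0 hM2
    have h2 : iota (M - R) x0 = 0 :=
      iota_eq_zero_of_dual f (fun z => by simp [hMf' z]) (by rw [hf]; exact one_ne_zero)
    have h3 := hS _ h2
    rw [add_sub_cancel] at h3
    have h4 : ENNReal.ofReal ρ ≤ iota R x0 := h1.trans h3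
    have h5 : ρ ≤ (iota R x0).toReal := by
      rw [← ENNReal.ofReal_le_ofReal_iff ENNReal.toReal_nonneg, ENNReal.ofReal_toReal hfin]
      exact h4
    linarith

section complete
variable [CompleteSpace X]

lemma isUnit_sub_smul {T : X →L[ℂ] X} [Nontrivial X] {c : ℂ} (h : ‖T‖ < ‖c‖) :
    IsUnit (T - c • (1 : X →L[ℂ] X)) := by
  have := spectrum.mem_resolventSet_of_norm_lt (a := T) (k := c) h
  rw [spectrum.mem_resolventSet_iff, Algebra.algebraMap_eq_smul_one] at this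
  have h2 := this.neg
  rwa [neg_sub] at h2

lemma iota_pos_of_norm_lt {T : X →L[ℂ] X} {x : X} {c : ℂ} (h : ‖T‖ < ‖c‖) :
    0 < iota (T - c • (1 : X →L[ℂ] X)) x := by
  rcases subsingleton_or_nontrivial X with hX | hX
  · refine iota_pos_iff.2 ⟨1, one_pos, fun _ => 0, fun z _ => analyticAt_const, fun z _ =>
      Subsingleton.elim _ _⟩
  refine iota_pos_iff.2 ⟨‖c‖ - ‖T‖, by linarith,
    fun z => (Ring.inverse (T - (c + z) • (1 : X →L[ℂ] X))) x, ?_, ?_⟩
  · intro z hz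
    rw [mem_ball_zero_iff] at hz
    have hu : IsUnit (T - (c + z) • (1 : X →L[ℂ] X)) := isUnit_sub_smul (by
      have : ‖c‖ ≤ ‖c + z‖ + ‖z‖ := by
        calc ‖c‖ = ‖(c + z) - z‖ := by congr 1; ring
          _ ≤ _ := norm_sub_le _ _
      linarith)
    have h1 : AnalyticAt ℂ Ring.inverse (T - (c + z) • (1 : X →L[ℂ] X)) := by
      obtain ⟨u, hu⟩ := hu
      rw [← hu]; exact analyticAt_inverse u
    have h2 : AnalyticAt ℂ (fun z : ℂ => T - (c + z) • (1 : X →L[ℂ] X)) z := by fun_prop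
    have h3 := h1.comp_of_eq h2 rfl
    exact ((ContinuousLinearMap.apply ℂ X x).analyticAt _).comp h3
  · intro z hz
    rw [mem_ball_zero_iff] at hz
    have hu : IsUnit (T - (c + z) • (1 : X →L[ℂ] X)) := isUnit_sub_smul (by
      have : ‖c‖ ≤ ‖c + z‖ + ‖z‖ := by
        calc ‖c‖ = ‖(c + z) - z‖ := by congr 1; ring
          _ ≤ _ := norm_sub_le _ _
      linarith)
    have h1 := Ring.mul_inverse_cancel _ hu
    have h2 := congrArg (fun A : X →L[ℂ] X => A x) h1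
    simp only [mul_apply_eq_comp, sub_apply, smul_apply, one_apply_eq_self] at h2 ⊢
    generalize (Ring.inverse (T - (c + z) • (1 : X →L[ℂ] X))) x = w at h2 ⊢
    rw [← h2]
    module

end complete

end Pool.Agent.H296.IL
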