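import Pool.Agent.H296.IL.Rho

open scoped ENNReal NNReal Topology
open Metric Set Filter

namespace Pool.Agent.H296.IL

variable {X : Type*} [NormedAddCommGroup X] [NormedSpace ℂ X]
variable {Y : Type*} [NormedAddCommGroup Y] [NormedSpace ℂ Y]

namespace Nm

variable {σ : ℂ ≃+* ℂ} {x0 : X} {y0 : Y} {φ : (X →L[ℂ] X) ≃ (Y →L[ℂ] Y)}
variable [CompleteSpace X] [CompleteSpace Y]

/-- `rho` as a real linear map. -/
noncomputable def rhoR (N : Nm σ x0 y0 φ) : X →ₗ[ℝ] Y where
  toFun := N.rho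
  map_add' := N.rho_add
  map_smul' r x := by
    have := N.rho_smul (r : ℂ) x
    rw [N.sr, Complex.coe_smul, Complex.coe_smul] at this
    simpa using this

lemma sigma_cont (N : Nm σ x0 y0 φ) : Continuous σ := by
  have : Isometry σ := Isometry.of_dist_eq fun a b => by
    rw [dist_eq_norm, dist_eq_norm, ← map_sub, N.sn]
  exact this.continuous

lemma rho_cont (N : Nm σ x0 y0 φ) : Continuous N.rho := by
  have h : Continuous N.rhoR := by
    refine N.rhoR.continuous_of_seq_closed_graph fun u x y hu hy => ?_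
    refine eq_of_dual fun g' => ?_
    have h := fun z => N.K (N.symm.tau g') z
    simp only [tau_symm_tau] at h
    have e1 : Tendsto (fun n => g' (N.rho (u n))) atTop (𝓝 (g' y)) :=
      (g'.continuous.tendsto y).comp hy
    have e2 : Tendsto (fun n => g' (N.rho (u n))) atTop (𝓝 (g' (N.rho x))) := by
      simp only [h]
      exact (N.sigma_cont.tendsto _).comp
        (((N.symm.tau g').continuous.tendsto x).comp hu)
    exact tendsto_nhds_unique e1 e2
  exact h

lemma rho_neg (N : Nm σ x0 y0 φ) (x : X) : N.rho (-x) = -N.rho x := N.rhoR.map_neg x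

lemma rho_sub (N : Nm σ x0 y0 φ) (x x' : X) : N.rho (x - x') = N.rho x - N.rho x' :=
  N.rhoR.map_sub x x'

/-- vectors at which `φ T` and `T` are intertwined -/
def KK (N : Nm σ x0 y0 φ) (T : X →L[ℂ] X) : Set X := {x | φ T (N.rho x) = N.rho (T x)}

lemma KK_closed (N : Nm σ x0 y0 φ) (T : X →L[ℂ] X) : IsClosed (N.KK T) :=
  isClosed_eq ((φ T).continuous.comp N.rho_cont) (N.rho_cont.comp T.continuous)

lemma KK_add (N : Nm σ x0 y0 φ) {T : X →L[ℂ] X} {x x' : X} (h : x ∈ N.KK T)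
    (h' : x' ∈ N.KK T) : x + x' ∈ N.KK T := by
  simp only [KK, mem_ofPred_eq] at *
  rw [rho_add, map_add, h, h', ← rho_add, map_add]

lemma KK_smul (N : Nm σ x0 y0 φ) {T : X →L[ℂ] X} (c : ℂ) {x : X} (h : x ∈ N.KK T) :
    c • x ∈ N.KK T := by
  simp only [KK, mem_ofPred_eq] at *
  rw [rho_smul, map_smul, h, ← rho_smul, map_smul]

lemma KK_sub (N : Nm σ x0 y0 φ) {T : X →L[ℂ] X} {x x' : X} (h : x ∈ N.KK T)
    (h' : x' ∈ N.KK T) : x - x' ∈ N.KK T := by
  have := N.KK_add h (N.KK_smul (-1) h')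
  rwa [neg_one_smul, ← sub_eq_add_neg] at this

lemma inj_of_norm {T : X →L[ℂ] X} {c : ℂ} (h : ‖T‖ < ‖c‖) :
    Function.Injective (T - c • (1 : X →L[ℂ] X)) := by
  rw [injective_iff_map_eq_zero]
  intro z hz
  simp only [sub_apply, smul_apply, one_apply_eq_self] at hz
  rw [sub_eq_zero] at hz
  have h1 : ‖c‖ * ‖z‖ ≤ ‖T‖ * ‖z‖ := by
    rw [← norm_smul, ← hz]; exact T.le_opNorm z
  by_contra hne
  have h2 : 0 < ‖z‖ := norm_pos_iff.2 hne
  exact absurd (le_of_mul_le_mul_right h1 h2) (not_le.2 h)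

lemma resolvent_mem (N : Nm σ x0 y0 φ) {T : X →L[ℂ] X} {c : ℂ} (h : ‖T‖ < ‖c‖) {x : X}
    (hx : (T - c • (1 : X →L[ℂ] X)) x = x0) : x ∈ N.KK T := by
  have h1 := N.map_of_inj (iota_pos_of_norm_lt (x := x0) h) (inj_of_norm h) hx
  have h2 : φ (T - c • (1 : X →L[ℂ] X)) = φ T - σ c • (1 : Y →L[ℂ] Y) := by
    have := N.shift T (-c)
    rw [neg_smul, ← sub_eq_add_neg] at this
    rw [this, map_neg, neg_smul, ← sub_eq_add_neg]
  rw [h2] at h1
  simp only [sub_apply, smul_apply, one_apply_eq_self] at h1 hx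
  simp only [KK, mem_ofPred_eq]
  rw [sub_eq_iff_eq_add] at h1 hx
  rw [h1, hx, rho_add, rho_smul, N.rho_x0]

lemma exists_resolvent (N : Nm σ x0 y0 φ) {T : X →L[ℂ] X} {c : ℂ} (h : ‖T‖ < ‖c‖) :
    ∃ x, (T - c • (1 : X →L[ℂ] X)) x = x0 := by
  have : Nontrivial X := ⟨⟨x0, 0, N.hx0⟩⟩
  obtain ⟨u, hu⟩ := isUnit_sub_smul h
  refine ⟨(↑u⁻¹ : X →L[ℂ] X) x0, ?_⟩
  rw [← hu, ← mul_apply_eq_comp, Units.mul_inv]; rfl

lemma pow_mem (N : Nm σ x0 y0 φ) (T : X →L[ℂ] X) (n : ℕ) : (T ^ n) x0 ∈ N.KK T := by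
  have hc : ∀ m : ℕ, ‖T‖ < ‖(((m : ℝ) + ‖T‖ + 1 : ℝ) : ℂ)‖ := by
    intro m
    rw [Complex.norm_real, Real.norm_eq_abs, abs_of_nonneg (by positivity)]
    have : (0 : ℝ) ≤ m := Nat.cast_nonneg m
    linarith
  choose u hu using fun m : ℕ => N.exists_resolvent (hc m)
  have hmem : ∀ m, u m ∈ N.KK T := fun m => N.resolvent_mem (hc m) (hu m)
  have hu0 : Tendsto u atTop (𝓝 0) := by
    rw [tendsto_zero_iff_norm_tendsto_zero]
    have hb : ∀ m, ‖u m‖ ≤ ‖x0‖ * (1 / ((m : ℝ) + 1)) := by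
      intro m
      have h1 := hu m
      simp only [sub_apply, smul_apply, one_apply_eq_self] at h1
      have h2 : (((m : ℝ) + ‖T‖ + 1 : ℝ) : ℂ) • u m = T (u m) - x0 := by rw [← h1]; abel
      have h3 : ((m : ℝ) + ‖T‖ + 1) * ‖u m‖ ≤ ‖T‖ * ‖u m‖ + ‖x0‖ := by
        calc ((m : ℝ) + ‖T‖ + 1) * ‖u m‖ = ‖(((m : ℝ) + ‖T‖ + 1 : ℝ) : ℂ) • u m‖ := by
              rw [norm_smul, Complex.norm_real, Real.norm_eq_abs,
                abs_of_nonneg (by positivity)]
          _ = ‖T (u m) - x0‖ := by rw [h2]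
          _ ≤ ‖T (u m)‖ + ‖x0‖ := norm_sub_le _ _
          _ ≤ _ := by gcongr; exact T.le_opNorm _
      have h4 : (0 : ℝ) < (m : ℝ) + 1 := by positivity
      rw [mul_one_div, le_div_iff₀ h4]
      linarith
    refine squeeze_zero (fun _ => norm_nonneg _) hb ?_
    have := (tendsto_one_div_add_atTop_nhds_zero_nat (𝕜 := ℝ)).const_mul ‖x0‖
    simpa using this
  induction n using Nat.strong_induction_on with
  | _ n ih =>
    have hTn : ∀ k ≤ n, ∀ m, (T ^ k) (u m) ∈ N.KK T := by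
      intro k
      induction k with
      | zero => intro _ m; simpa using hmem m
      | succ k ihk =>
        intro hk m
        have h1 := hu m
        simp only [sub_apply, smul_apply, one_apply_eq_self] at h1
        rw [sub_eq_iff_eq_add] at h1
        have h2 : (T ^ (k + 1)) (u m) = (T ^ k) x0 +
            (((m : ℝ) + ‖T‖ + 1 : ℝ) : ℂ) • (T ^ k) (u m) := by
          rw [pow_succ, mul_apply_eq_comp, h1, map_add, map_smul]
        rw [h2]
        exact N.KK_add (ih k (by omega)) (N.KK_smul _ (ihk (by omega) m))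
    have hlim : Tendsto (fun m : ℕ => (-(((m : ℝ) + ‖T‖ + 1 : ℝ) : ℂ)) • (T ^ n) (u m)) atTop
        (𝓝 ((T ^ n) x0)) := by
      have h2 : ∀ m : ℕ, (-(((m : ℝ) + ‖T‖ + 1 : ℝ) : ℂ)) • (T ^ n) (u m) =
          (T ^ n) x0 - (T ^ (n + 1)) (u m) := by
        intro m
        have h1 := hu m
        simp only [sub_apply, smul_apply, one_apply_eq_self] at h1
        rw [pow_succ, mul_apply_eq_comp, ← map_sub, ← map_smul]
        congr 1
        rw [← h1]; module
      simp only [h2]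
      have h3 : Tendsto (fun m => (T ^ (n + 1)) (u m)) atTop (𝓝 ((T ^ (n + 1)) 0)) :=
        ((T ^ (n + 1)).continuous.tendsto 0).comp hu0
      rw [map_zero] at h3
      have := (tendsto_const_nhds (x := (T ^ n) x0) (f := (atTop : Filter ℕ))).sub h3
      simpa using this
    exact (N.KK_closed T).mem_of_tendsto hlim
      (Eventually.of_forall fun m => N.KK_smul _ (hTn n le_rfl m))

/-- conjugate operator as a linear map -/
noncomputable def UU (N : Nm σ x0 y0 φ) (T : X →L[ℂ] X) : X →ₗ[ℂ] X where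
  toFun z := N.symm.rho (φ T (N.rho z))
  map_add' z w := by rw [rho_add, map_add, rho_add]
  map_smul' c z := by
    rw [rho_smul, map_smul, rho_smul, RingEquiv.symm_apply_apply]; rfl

lemma rho_UU (N : Nm σ x0 y0 φ) (T : X →L[ℂ] X) (z : X) :
    N.rho (N.UU T z) = φ T (N.rho z) := N.rho_symm_rho _

lemma UU_of_mem (N : Nm σ x0 y0 φ) {T : X →L[ℂ] X} {z : X} (h : z ∈ N.KK T) :
    N.UU T z = T z := by
  have h1 : φ T (N.rho z) = N.rho (T z) := h
  change N.symm.rho (φ T (N.rho z)) = T z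
  rw [h1, symm_rho_rho]

theorem main (N : Nm σ x0 y0 φ) (T : X →L[ℂ] X) (x : X) : φ T (N.rho x) = N.rho (T x) := by
  by_contra hne
  have hx0 := N.hx0
  set U := N.UU T with hU
  set D : X →ₗ[ℂ] X := (T : X →ₗ[ℂ] X) - U with hD
  have hDz : ∀ z, D z = T z - U z := fun z => rfl
  have hDx : D x ≠ 0 := by
    intro h
    rw [hDz, sub_eq_zero] at h
    apply hne
    rw [← rho_UU, ← hU, ← h]
  have hDx0 : D x0 = 0 := by
    rw [hDz, sub_eq_zero, hU]
    exact (N.UU_of_mem (by simpa using N.pow_mem T 0)).symm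
  have hDTx0 : D (T x0) = 0 := by
    rw [hDz, sub_eq_zero, hU]
    exact (N.UU_of_mem (by simpa using N.pow_mem T 1)).symm
  have hxind : ∀ a : ℂ, x ≠ a • x0 := by
    rintro a rfl
    rw [map_smul, hDx0, smul_zero] at hDx
    exact hDx rfl
  -- choice of `z` and `f`
  obtain ⟨z, f, hf0, hfz, hfD, hz⟩ : ∃ (z : X) (f : X →L[ℂ] ℂ), f x0 = 1 ∧ f z = 0 ∧
      f (D z) = -1 ∧ ∀ a : ℂ, z ≠ a • x0 := by
    by_cases hA : ∃ z, ∀ a b : ℂ, D z ≠ a • x0 + b • z
    · obtain ⟨z, hz⟩ := hA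
      have hzi : ∀ a : ℂ, z ≠ a • x0 := by
        rintro a rfl
        apply hz 0 0
        rw [map_smul, hDx0]; simp
      obtain ⟨f, h1, h2, h3⟩ := dual3 hx0 hzi hz 1 0 (-1)
      exact ⟨z, f, h1, h2, h3, hzi⟩
    · push Not at hA
      obtain ⟨d, hd⟩ := span_scalar D hA
      obtain ⟨t, ht⟩ := hd x
      by_cases hd0 : d = 0
      · rw [hd0, zero_smul, zero_add] at ht
        have ht0 : t ≠ 0 := by
          rintro rfl
          exact hDx (by rw [ht, zero_smul])
        have hzi : ∀ a : ℂ, (-t⁻¹) • x ≠ a • x0 := by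
          intro a ha
          have h1 := congrArg D ha
          rw [map_smul, map_smul, ht, hDx0, smul_zero, smul_smul] at h1
          have h2 := (smul_eq_zero.1 h1).resolve_right hx0
          rw [neg_mul, inv_mul_cancel₀ ht0] at h2
          norm_num at h2
        obtain ⟨f, h1, h2⟩ := dual2 hx0 hzi 1 0
        refine ⟨_, f, h1, h2, ?_, hzi⟩
        rw [map_smul, ht, smul_smul, neg_mul, inv_mul_cancel₀ ht0, map_smul, h1]
        simp
      · set s : ℂ := (t + 1) / d with hs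
        have hzi : ∀ a : ℂ, x + s • x0 ≠ a • x0 := by
          intro a ha
          apply hxind (a - s)
          rw [sub_smul, ← ha]; abel
        obtain ⟨f, h1, h2⟩ := dual2 hx0 hzi 1 0
        refine ⟨_, f, h1, h2, ?_, hzi⟩
        have h3 : D (x + s • x0) = d • (x + s • x0) - x0 := by
          rw [map_add, map_smul, hDx0, smul_zero, add_zero, ht]
          have : d * s = t + 1 := by rw [hs]; field_simp
          rw [smul_add, smul_smul, this]; module
        rw [h3, map_sub, map_smul, h2, h1]; simp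
  have hDzne : D z ≠ 0 := by
    intro h; rw [h, map_zero] at hfD
    norm_num at hfD
  have hfT : f (T z) = f (U z) - 1 := by
    have : f (D z) = f (T z) - f (U z) := by rw [hDz, map_sub]
    rw [this] at hfD; linear_combination hfD
  -- construction of `S`
  obtain ⟨S, hS0, hSz, hSf, hSK⟩ : ∃ S : X →L[ℂ] X, S x0 = T x0 - z ∧ S z = U z - x0 ∧
      (∀ w, f (S w) = f (T w)) ∧ z ∈ N.KK S := by
    by_cases hT : ∃ a b : ℂ, T x0 = a • x0 + b • z
    · obtain ⟨a, b, hab⟩ := hT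
      have hb : b = 0 := by
        rw [hab, map_add, map_smul, map_smul, hDx0, smul_zero, zero_add] at hDTx0
        exact (smul_eq_zero.1 hDTx0).resolve_right hDzne
      rw [hb, zero_smul, add_zero] at hab
      obtain ⟨S, h1, h2, h3⟩ := ext2 T hx0 hz (T x0 - z) (U z - x0)
      refine ⟨S, h1, h2, h3 f (by rw [map_sub, hfz, sub_zero]) (by rw [map_sub, hf0, hfT]), ?_⟩
      have e0 : x0 ∈ N.KK S := by simpa using N.pow_mem S 0
      have e1 : S x0 ∈ N.KK S := by simpa using N.pow_mem S 1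
      have e2 : z = a • x0 - S x0 := by rw [h1, hab]; abel
      rw [e2]
      exact N.KK_sub (N.KK_smul a e0) e1
    · push Not at hT
      have hT' : ∀ a b : ℂ, T x0 - z ≠ a • x0 + b • z := by
        intro a b h
        apply hT a (b + 1)
        rw [sub_eq_iff_eq_add] at h
        rw [h]; module
      obtain ⟨S, h1, h2, h3, h4⟩ := ext3 T hx0 hz hT' (T x0 - z) (U z - x0)
        (z + f (T (T x0 - z)) • x0)
      refine ⟨S, h1, h2, h4 f (by rw [map_sub, hfz, sub_zero]) (by rw [map_sub, hf0, hfT])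
        (by rw [map_add, map_smul, hfz, hf0]; simp), ?_⟩
      have e0 : x0 ∈ N.KK S := by simpa using N.pow_mem S 0
      have e1 : S (S x0) ∈ N.KK S := by
        have := N.pow_mem S 2
        rwa [pow_two] at this
      have e2 : z = S (S x0) - f (T (T x0 - z)) • x0 := by rw [h1, h3]; abel
      rw [e2]
      exact N.KK_sub e1 (N.KK_smul _ e0)
  have hSx0K : φ S y0 = N.rho (S x0) := by
    have : x0 ∈ N.KK S := by simpa using N.pow_mem S 0
    simp only [KK, mem_ofPred_eq, N.rho_x0] at this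
    exact this
  have hTx0K : φ T y0 = N.rho (T x0) := by
    have : x0 ∈ N.KK T := by simpa using N.pow_mem T 0
    simp only [KK, mem_ofPred_eq, N.rho_x0] at this
    exact this
  have hR1 : (φ T - φ S) y0 = N.rho z := by
    rw [sub_apply, hSx0K, hTx0K, ← rho_sub, hS0]
    congr 1; abel
  have hR2 : (φ T - φ S) (N.rho z) = y0 := by
    have h1 : φ S (N.rho z) = N.rho (S z) := hSK
    have h2 : N.UU T z - (U z - x0) = x0 := by rw [hU]; abel
    rw [sub_apply, h1, ← rho_UU, ← rho_sub, hSz, h2, N.rho_x0]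
  have hpos : 0 < iota (φ T - φ S) y0 :=
    iota_pos_of_quad (a := 1) (b := 0) (by rw [hR1, hR2]; simp) one_ne_zero
  rw [N.sub] at hpos
  refine hpos.ne' (iota_eq_zero_of_dual f (fun w => ?_) (by rw [hf0]; exact one_ne_zero))
  rw [sub_apply, map_sub, hSf, sub_self]

end Nm

end Pool.Agent.H296.IL
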