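import Pool.Agent.H296.IL.Lin

open scoped ENNReal NNReal
open Metric Set

namespace Pool.Agent.H296.IL

variable {X : Type*} [NormedAddCommGroup X] [NormedSpace ℂ X]

lemma span_scalar (F : X →ₗ[ℂ] X) {x0 : X}
    (h : ∀ x, ∃ a b : ℂ, F x = a • x0 + b • x) :
    ∃ d : ℂ, ∀ x, ∃ t : ℂ, F x = d • x + t • x0 := by
  set N : Submodule ℂ X := Submodule.span ℂ {x0} with hN
  have hx0N : x0 ∈ N := Submodule.mem_span_singleton_self x0
  have hle : N ≤ N.comap F := by
    intro x hx
    obtain ⟨c, rfl⟩ := Submodule.mem_span_singleton.1 hx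
    obtain ⟨a, b, hab⟩ := h (c • x0)
    rw [Submodule.mem_comap, hab]
    exact N.add_mem (N.smul_mem _ hx0N) (N.smul_mem _ hx)
  obtain ⟨d, hd⟩ := LinearMap.exists_eq_smul_id_of_forall_notLinearIndependent
    (f := N.mapQ N F hle) (by
      intro v hv
      obtain ⟨x, rfl⟩ := N.mkQ_surjective v
      obtain ⟨a, b, hab⟩ := h x
      rw [LinearIndependent.pair_iff] at hv
      have h1 : N.mapQ N F hle (N.mkQ x) = b • N.mkQ x := by
        rw [Submodule.mkQ_apply, Submodule.mapQ_apply, hab, ← Submodule.mkQ_apply, map_add,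
          map_smul, map_smul, Submodule.mkQ_apply, (Submodule.Quotient.mk_eq_zero N).2 hx0N,
          smul_zero, zero_add]
        rfl
      have := hv b (-1) (by rw [h1]; module)
      exact one_ne_zero (neg_eq_zero.1 this.2))
  refine ⟨d, fun x => ?_⟩
  have h2 := LinearMap.congr_fun hd (N.mkQ x)
  rw [Submodule.mkQ_apply, Submodule.mapQ_apply, LinearMap.smul_apply, Module.End.one_apply,
    ← Submodule.Quotient.mk_smul, Submodule.Quotient.eq] at h2
  obtain ⟨t, ht⟩ := Submodule.mem_span_singleton.1 h2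
  exact ⟨t, by rw [ht]; abel⟩

/-- The property used to recognise rank one operators `x0 ⊗ g`. -/
def PP (x0 : X) (F : X →L[ℂ] X) : Prop :=
  ∀ S : X →L[ℂ] X, 0 < iota S x0 → iota (S + F) x0 = 0 → iota (S - F) x0 ≠ 0

lemma PP_rankone (x0 : X) (g : X →L[ℂ] ℂ) : PP x0 (g.smulRight x0) := by
  intro S hS h1 h2
  obtain ⟨y, -, hy⟩ := rankone_pert hS
  have e1 := hy g h2
  have e2 := hy (-g) (by
    rw [← h1]; congr 1
    ext z; simp)
  simp only [neg_apply] at e2
  rw [e1] at e2
  norm_num at e2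

lemma PP_class {x0 : X} (hx0 : x0 ≠ 0) {F : X →L[ℂ] X} (h : PP x0 F) :
    (∃ g : X →L[ℂ] ℂ, F = g.smulRight x0) ∨
      (∃ (d : ℂ) (g : X →L[ℂ] ℂ), g x0 = -d ∧ d ≠ 0 ∧
        F = d • (1 : X →L[ℂ] X) + g.smulRight x0) := by
  have ha : ∃ c : ℂ, F x0 = c • x0 := by
    by_contra hc
    push Not at hc
    obtain ⟨f1, h11, h12⟩ := dual2 hx0 hc 1 (-1)
    obtain ⟨f2, h21, h22⟩ := dual2 hx0 hc 1 1
    set v1 : X := (2 : ℂ)⁻¹ • (x0 - F x0) with hv1
    set v2 : X := (2 : ℂ)⁻¹ • (x0 + F x0) with hv2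
    have e11 : f1 v1 = 1 := by simp [hv1, h11, h12]; norm_num
    have e12 : f1 v2 = 0 := by simp [hv2, h11, h12]
    have e21 : f2 v1 = 0 := by simp [hv1, h21, h22]
    have e22 : f2 v2 = 1 := by simp [hv2, h21, h22]; norm_num
    set S : X →L[ℂ] X := (-(f1.comp F)).smulRight v1 + (f2.comp F).smulRight v2 with hS
    have hSx : S x0 = (1 : ℂ) • x0 := by
      simp only [hS, add_apply, ContinuousLinearMap.smulRight_apply, neg_apply,
        ContinuousLinearMap.comp_apply, h12, h22, hv1, hv2]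
      module
    refine h S (iota_pos_of_eigen hSx one_ne_zero) ?_ ?_
    · refine iota_eq_zero_of_dual f1 (fun z => ?_) (by rw [h11]; exact one_ne_zero)
      simp [hS, e11, e12]
    · refine iota_eq_zero_of_dual f2 (fun z => ?_) (by rw [h21]; exact one_ne_zero)
      simp [hS, e21, e22]
  obtain ⟨c, hc⟩ := ha
  by_cases hb1 : ∃ x1, ∀ a b : ℂ, F x1 ≠ a • x0 + b • x1
  · exfalso
    obtain ⟨x1, hx1⟩ := hb1
    have hind : ∀ a : ℂ, x1 ≠ a • x0 := by
      intro a ha
      apply hx1 (a * c) 0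
      rw [ha, map_smul, hc]; module
    obtain ⟨f1, h11, h12, h13⟩ := dual3 hx0 hind hx1 1 (-c) (-1)
    obtain ⟨f2, h21, h22, h23⟩ := dual3 hx0 hind hx1 1 c 1
    set v1 : X := (2 : ℂ)⁻¹ • (x0 - F x1) with hv1
    set v2 : X := (2 : ℂ)⁻¹ • (x0 + F x1) with hv2
    have e11 : f1 v1 = 1 := by simp [hv1, h11, h13]; norm_num
    have e12 : f1 v2 = 0 := by simp [hv2, h11, h13]
    have e21 : f2 v1 = 0 := by simp [hv1, h21, h23]
    have e22 : f2 v2 = 1 := by simp [hv2, h21, h23]; norm_num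
    set T : X →L[ℂ] X := (-(f1.comp F)).smulRight v1 + (f2.comp F).smulRight v2 with hT
    have hT1 : ∀ z, f1 (T z) = - f1 (F z) := fun z => by simp [hT, e11, e12]
    have hT2 : ∀ z, f2 (T z) = f2 (F z) := fun z => by simp [hT, e21, e22]
    obtain ⟨S, hS0, hS1, hSf⟩ := ext2 T hx0 hind x1 x0
    have hS1' := hSf f1 (by rw [hT1, hc, h12]; simp [h11]) (by rw [hT1, h13, h11]; simp)
    have hS2' := hSf f2 (by rw [hT2, hc, h22]; simp [h21]) (by rw [hT2, h23, h21])
    refine h S (iota_pos_of_quad (a := 1) (b := 0) (by rw [hS0, hS1]; simp) one_ne_zero) ?_ ?_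
    · refine iota_eq_zero_of_dual f1 (fun z => ?_) (by rw [h11]; exact one_ne_zero)
      rw [add_apply, map_add, hS1', hT1]; ring
    · refine iota_eq_zero_of_dual f2 (fun z => ?_) (by rw [h21]; exact one_ne_zero)
      rw [sub_apply, map_sub, hS2', hT2]; ring
  · push Not at hb1
    obtain ⟨d, hd⟩ := span_scalar (F : X →ₗ[ℂ] X) hb1
    obtain ⟨e, he⟩ := SeparatingDual.exists_eq_one (R := ℂ) hx0
    set k : X →L[ℂ] ℂ := e.comp (F - d • (1 : X →L[ℂ] X)) with hk
    have hF : ∀ x, F x = d • x + k x • x0 := by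
      intro x
      obtain ⟨t, ht⟩ := hd x
      have ht' : F x = d • x + t • x0 := ht
      have : k x = t := by
        simp only [hk, ContinuousLinearMap.comp_apply, sub_apply, smul_apply, one_apply_eq_self]
        rw [ht']
        simp [he]
      rw [this]; exact ht'
    have hF' : F = d • (1 : X →L[ℂ] X) + k.smulRight x0 := by
      ext x; rw [hF x]; simp
    by_cases hd0 : d = 0
    · left
      refine ⟨k, ?_⟩
      rw [hF', hd0]; simp
    by_cases hc0 : c = 0
    · right
      refine ⟨d, k, ?_, hd0, hF'⟩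
      have := hF x0
      rw [hc, hc0, zero_smul, ← add_smul] at this
      have := (smul_eq_zero.1 this.symm).resolve_right hx0
      linear_combination this
    have hcd : c = d + k x0 := by
      have h1 := hF x0
      rw [hc, ← add_smul] at h1
      exact smul_left_injective ℂ hx0 h1
    by_cases hdim : ∃ x1 : X, ∀ a : ℂ, x1 ≠ a • x0
    · exfalso
      obtain ⟨x1, hind⟩ := hdim
      obtain ⟨f1, h11, h12⟩ := dual2 hx0 hind 1 (-c)
      obtain ⟨f2, h21, h22⟩ := dual2 hx0 hind 1 c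
      set v1 : X := (2 : ℂ)⁻¹ • (x0 - c⁻¹ • x1) with hv1
      set v2 : X := (2 : ℂ)⁻¹ • (x0 + c⁻¹ • x1) with hv2
      have e11 : f1 v1 = 1 := by simp [hv1, h11, h12, hc0]; norm_num
      have e12 : f1 v2 = 0 := by simp [hv2, h11, h12, hc0]
      have e21 : f2 v1 = 0 := by simp [hv1, h21, h22, hc0]
      have e22 : f2 v2 = 1 := by simp [hv2, h21, h22, hc0]; norm_num
      set T : X →L[ℂ] X := (-(f1.comp F)).smulRight v1 + (f2.comp F).smulRight v2 with hT
      have hT1 : ∀ z, f1 (T z) = - f1 (F z) := fun z => by simp [hT, e11, e12]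
      have hT2 : ∀ z, f2 (T z) = f2 (F z) := fun z => by simp [hT, e21, e22]
      obtain ⟨S, hS0, hS1, hSf⟩ := ext2 T hx0 hind x1 ((d * c) • x0 + (c⁻¹ * k x1) • x1)
      have hS1' := hSf f1 (by rw [hT1, hc, h12]; simp [h11]) (by
        rw [hT1, hF x1]
        simp only [map_add, map_smul, smul_eq_mul, h11, h12]
        field_simp
        ring)
      have hS2' := hSf f2 (by rw [hT2, hc, h22]; simp [h21]) (by
        rw [hT2, hF x1]
        simp only [map_add, map_smul, smul_eq_mul, h21, h22]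
        field_simp)
      refine h S (iota_pos_of_quad (a := d * c) (b := c⁻¹ * k x1) (by rw [hS0, hS1])
        (mul_ne_zero hd0 hc0)) ?_ ?_
      · refine iota_eq_zero_of_dual f1 (fun z => ?_) (by rw [h11]; exact one_ne_zero)
        rw [add_apply, map_add, hS1', hT1]; ring
      · refine iota_eq_zero_of_dual f2 (fun z => ?_) (by rw [h21]; exact one_ne_zero)
        rw [sub_apply, map_sub, hS2', hT2]; ring
    · left
      push Not at hdim
      refine ⟨e.comp F, ?_⟩
      ext x
      obtain ⟨a, ha⟩ := hdim (F x)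
      simp only [ContinuousLinearMap.smulRight_apply, ContinuousLinearMap.comp_apply]
      rw [ha]; simp [he]

end Pool.Agent.H296.IL
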