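import Pool.Agent.H296.IL.PP

open scoped ENNReal NNReal
open Metric Set

namespace Pool.Agent.H296.IL

variable {X : Type*} [NormedAddCommGroup X] [NormedSpace ℂ X]
variable {Y : Type*} [NormedAddCommGroup Y] [NormedSpace ℂ Y]

/-- The preserver condition for a bijection. -/
structure Pr (x0 : X) (y0 : Y) (φ : (X →L[ℂ] X) ≃ (Y →L[ℂ] Y)) : Prop where
  hx0 : x0 ≠ 0
  hy0 : y0 ≠ 0
  zero : φ 0 = 0
  add : ∀ T S, iota (φ T + φ S) y0 = iota (T + S) x0
  sub : ∀ T S, iota (φ T - φ S) y0 = iota (T - S) x0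

namespace Pr

variable {x0 : X} {y0 : Y} {φ : (X →L[ℂ] X) ≃ (Y →L[ℂ] Y)}

lemma symm (h : Pr x0 y0 φ) : Pr y0 x0 φ.symm where
  hx0 := h.hy0
  hy0 := h.hx0
  zero := by rw [Equiv.symm_apply_eq, h.zero]
  add T S := by rw [← h.add, Equiv.apply_symm_apply, Equiv.apply_symm_apply]
  sub T S := by rw [← h.sub, Equiv.apply_symm_apply, Equiv.apply_symm_apply]

lemma one (h : Pr x0 y0 φ) (T : X →L[ℂ] X) : iota (φ T) y0 = iota T x0 := by
  have := h.add T 0
  rwa [h.zero, add_zero, add_zero] at this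

lemma scalar_sub (h : Pr x0 y0 φ) {A B : X →L[ℂ] X}
    (hAB : ∃ c : ℂ, A - B = c • (1 : X →L[ℂ] X)) :
    ∃ c : ℂ, φ A - φ B = c • (1 : Y →L[ℂ] Y) := by
  obtain ⟨h1, h2⟩ := (scalar_char h.hx0 (A - B)).1 hAB
  refine (scalar_char h.hy0 _).2 ⟨by rw [h.sub]; exact h1, fun S' hS' => ?_⟩
  set R := φ.symm (S' + φ A) with hR
  have hφR : φ R = S' + φ A := by rw [hR, Equiv.apply_symm_apply]
  have e1 : iota (R - A) x0 = 0 := by
    rw [← h.sub, hφR, add_sub_cancel_right]; exact hS'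
  have e2 := h2 _ e1
  have e3 : A - B + (R - A) = R - B := by abel
  rw [e3, ← h.sub, ← h.sub, hφR] at e2
  have e4 : φ A - φ B + S' = S' + φ A - φ B := by abel
  rw [e4]; exact e2

lemma scalar (h : Pr x0 y0 φ) (c : ℂ) : ∃ c' : ℂ, φ (c • (1 : X →L[ℂ] X)) = c' • 1 := by
  have := h.scalar_sub (A := c • (1 : X →L[ℂ] X)) (B := 0) ⟨c, by simp⟩
  simpa [h.zero] using this

lemma PP_map (h : Pr x0 y0 φ) {F : X →L[ℂ] X} (hF : PP x0 F) : PP y0 (φ F) := by
  intro S' h1 h2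
  have e : S' = φ (φ.symm S') := by rw [Equiv.apply_symm_apply]
  rw [e] at h1 h2 ⊢
  rw [h.one] at h1
  rw [h.add] at h2
  rw [h.sub]
  exact hF _ h1 h2

end Pr

/-- Isometries of the complex plane. -/
lemma isom_class (h : ℂ → ℂ) (hiso : ∀ a b, ‖h a - h b‖ = ‖a - b‖)
    (hsurj : Function.Surjective h) (h0 : h 0 = 0) :
    ∃ α : ℂ, ‖α‖ = 1 ∧ ((∀ z, h z = α * z) ∨ (∀ z, h z = α * (starRingEnd ℂ) z)) := by
  have hi : Isometry h := Isometry.of_dist_eq fun a b => by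
    rw [dist_eq_norm, dist_eq_norm, hiso]
  let e : ℂ ≃ᵢ ℂ := IsometryEquiv.mk' h (Function.surjInv hsurj)
    (Function.surjInv_eq hsurj) hi
  have he0 : e 0 = 0 := h0
  obtain ⟨a, ha⟩ := linear_isometry_complex (e.toRealLinearIsometryEquivOfMapZero he0)
  have hez : ∀ z, h z = e.toRealLinearIsometryEquivOfMapZero he0 z := fun z => rfl
  refine ⟨(a : ℂ), Circle.norm_coe a, ?_⟩
  rcases ha with ha | ha
  · left
    intro z
    rw [hez, ha]; simp [rotation_apply]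
  · right
    intro z
    rw [hez, ha]; simp [rotation_apply]

/-- Normalised preservers. -/
structure Nm (σ : ℂ ≃+* ℂ) (x0 : X) (y0 : Y) (φ : (X →L[ℂ] X) ≃ (Y →L[ℂ] Y)) : Prop
    extends Pr x0 y0 φ where
  sn : ∀ z, ‖σ z‖ = ‖z‖
  sr : ∀ r : ℝ, σ r = r
  sc : ∀ c : ℂ, φ (c • (1 : X →L[ℂ] X)) = σ c • (1 : Y →L[ℂ] Y)

namespace Nm

variable {σ : ℂ ≃+* ℂ} {x0 : X} {y0 : Y} {φ : (X →L[ℂ] X) ≃ (Y →L[ℂ] Y)}

lemma symm (h : Nm σ x0 y0 φ) : Nm σ.symm y0 x0 φ.symm where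
  toPr := h.toPr.symm
  sn z := by rw [← h.sn, RingEquiv.apply_symm_apply]
  sr r := by
    rw [RingEquiv.symm_apply_eq, h.sr]
  sc c := by
    rw [Equiv.symm_apply_eq, h.sc, RingEquiv.apply_symm_apply]

/-- `T` is shift good -/
def Good (σ : ℂ ≃+* ℂ) (φ : (X →L[ℂ] X) ≃ (Y →L[ℂ] Y)) (T : X →L[ℂ] X) : Prop :=
  ∀ c : ℂ, φ (T + c • (1 : X →L[ℂ] X)) = φ T + σ c • (1 : Y →L[ℂ] Y)

lemma period [CompleteSpace Y] {B : Y →L[ℂ] Y} {y0 : Y} {δ ν0 : ℂ}
    (h0 : iota (B - ν0 • (1 : Y →L[ℂ] Y)) y0 = 0)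
    (h : ∀ ν : ℂ, iota (B - (ν - δ) • (1 : Y →L[ℂ] Y)) y0 = iota (B - ν • (1 : Y →L[ℂ] Y)) y0) :
    δ = 0 := by
  by_contra hδ
  have h1 : ∀ n : ℕ, iota (B - (ν0 - n * δ) • (1 : Y →L[ℂ] Y)) y0 = 0 := by
    intro n
    induction n with
    | zero => simpa using h0
    | succ n ih =>
      rw [← ih, ← h (ν0 - n * δ)]
      congr 3
      push_cast; ring
  obtain ⟨n, hn⟩ := exists_nat_gt ((‖B‖ + ‖ν0‖) / ‖δ‖)
  have hδ' : 0 < ‖δ‖ := norm_pos_iff.2 hδ
  rw [div_lt_iff₀ hδ'] at hn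
  have h2 : ‖B‖ < ‖ν0 - n * δ‖ := by
    have : ‖(n : ℂ) * δ‖ ≤ ‖ν0 - n * δ‖ + ‖ν0‖ := by
      calc ‖(n : ℂ) * δ‖ = ‖ν0 - (ν0 - n * δ)‖ := by congr 1; ring
        _ ≤ ‖ν0‖ + ‖ν0 - n * δ‖ := norm_sub_le _ _
        _ = _ := by ring
    rw [norm_mul, Complex.norm_natCast] at this
    linarith
  exact (iota_pos_of_norm_lt (x := y0) h2).ne' (h1 n)

lemma good_of (N : Nm σ x0 y0 φ) [CompleteSpace Y] {S T : X →L[ℂ] X} (hS : Good σ φ S) {μ0 : ℂ}
    (h0 : iota (T - S - μ0 • (1 : X →L[ℂ] X)) x0 = 0) : Good σ φ T := by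
  intro c
  obtain ⟨k, hk⟩ := N.scalar_sub (A := T + c • (1 : X →L[ℂ] X)) (B := T) ⟨c, by abel⟩
  have hk' : φ (T + c • (1 : X →L[ℂ] X)) = φ T + k • (1 : Y →L[ℂ] Y) := by
    rw [← hk]; abel
  have hE : ∀ μ : ℂ, iota (φ T - φ S - σ μ • (1 : Y →L[ℂ] Y)) y0 =
      iota (T - S - μ • (1 : X →L[ℂ] X)) x0 := by
    intro μ
    rw [sub_sub, ← hS μ, N.sub, sub_sub]
  have : k - σ c = 0 := by
    refine period (B := φ T - φ S) (y0 := y0) (ν0 := σ μ0) ?_ ?_
    · rw [hE]; exact h0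
    · intro ν
      obtain ⟨μ, rfl⟩ : ∃ μ, ν = σ (μ - c) := ⟨σ.symm ν + c, by simp⟩
      rw [hE]
      have e1 : φ T - φ S - (σ (μ - c) - (k - σ c)) • (1 : Y →L[ℂ] Y) =
          φ (T + c • (1 : X →L[ℂ] X)) - φ (S + μ • (1 : X →L[ℂ] X)) := by
        rw [hk', hS, map_sub]; module
      rw [e1, N.sub]
      congr 1
      module
  rw [hk', sub_eq_zero.1 this]

lemma shift (N : Nm σ x0 y0 φ) [CompleteSpace Y] (T : X →L[ℂ] X) : Good σ φ T := by
  have g0 : Good σ φ (0 : X →L[ℂ] X) := by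
    intro c; rw [zero_add, N.zero, zero_add, N.sc]
  obtain ⟨f, hf⟩ := SeparatingDual.exists_eq_one (R := ℂ) N.hx0
  set μ0 : ℂ := f (T x0) - 1 with hμ0
  set k : X →L[ℂ] ℂ := f.comp T - μ0 • f with hk
  have hk0 : k x0 = 1 := by simp [hk, hf, hμ0]
  have gS : Good σ φ (k.smulRight x0) := by
    refine N.good_of g0 (μ0 := 1) ?_
    refine iota_eq_zero_of_not_range fun z hz => ?_
    simp only [sub_zero, sub_apply, ContinuousLinearMap.smulRight_apply, one_smul,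
      one_apply_eq_self] at hz
    have h1 : z = (k z - 1) • x0 := by
      rw [sub_smul, one_smul, eq_sub_iff_add_eq, sub_eq_iff_eq_add.1 hz]; abel
    have h2 := congrArg k h1
    rw [map_smul, hk0, smul_eq_mul, mul_one] at h2
    have : (1 : ℂ) = 0 := by linear_combination h2
    exact one_ne_zero this
  refine N.good_of gS (μ0 := μ0) ?_
  refine iota_eq_zero_of_dual f (fun z => ?_) (by rw [hf]; exact one_ne_zero)
  simp [hk, hf]

lemma rank_aux (N : Nm σ x0 y0 φ) (g : X →L[ℂ] ℂ) (hg : g x0 ≠ 0) :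
    ∃ g' : Y →L[ℂ] ℂ, φ (g.smulRight x0) = g'.smulRight y0 ∧ g' y0 = σ (g x0) := by
  have hpos : 0 < iota (g.smulRight x0) x0 :=
    iota_pos_of_eigen (a := g x0) (by simp) hg
  rcases PP_class N.hy0 (N.PP_map (PP_rankone x0 g)) with ⟨g', hg'⟩ | ⟨d, g', h1, h2, h3⟩
  · refine ⟨g', hg', ?_⟩
    have h1 : iota (g.smulRight x0 - (g x0) • (1 : X →L[ℂ] X)) x0 = 0 := by
      refine iota_eq_zero_of_not_range fun z hz => ?_
      simp only [sub_apply, ContinuousLinearMap.smulRight_apply, smul_apply,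
        one_apply_eq_self] at hz
      have h4 : g x0 • z = (g z - 1) • x0 := by
        rw [sub_smul, one_smul, sub_eq_iff_eq_add.1 hz]; abel
      have h5 := congrArg g h4
      rw [map_smul, map_smul, smul_eq_mul, smul_eq_mul] at h5
      have h6 : g x0 = 0 := by linear_combination h5
      exact hg h6
    have h2 : iota (φ (g.smulRight x0) - σ (g x0) • (1 : Y →L[ℂ] Y)) y0 = 0 := by
      rw [← N.sc, N.sub, h1]
    by_contra hne
    refine (iota_pos_of_eigen (T := φ (g.smulRight x0) - σ (g x0) • (1 : Y →L[ℂ] Y))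
      (x := y0) (a := g' y0 - σ (g x0)) ?_ (sub_ne_zero.2 hne)).ne' h2
    rw [hg']; simp [sub_smul]
  · exfalso
    rw [← N.one] at hpos
    refine hpos.ne' (iota_eq_zero_of_not_range fun z hz => ?_)
    rw [h3] at hz
    simp only [add_apply, smul_apply, one_apply_eq_self,
      ContinuousLinearMap.smulRight_apply] at hz
    have h4 : d • z = (1 - g' z) • y0 := by
      rw [sub_smul, one_smul, eq_sub_iff_add_eq]; exact hz
    have h5 := congrArg g' h4
    rw [map_smul, map_smul, smul_eq_mul, smul_eq_mul, h1] at h5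
    have : d = 0 := by linear_combination h5
    exact h2 this

lemma smulRight_inj {x0 : X} (hx0 : x0 ≠ 0) {g g' : X →L[ℂ] ℂ}
    (h : g.smulRight x0 = g'.smulRight x0) : g = g' := by
  ext z
  have := congrArg (fun A : X →L[ℂ] X => A z) h
  simp only [ContinuousLinearMap.smulRight_apply] at this
  exact smul_left_injective ℂ hx0 this

lemma rank (N : Nm σ x0 y0 φ) [CompleteSpace X] [CompleteSpace Y] (g : X →L[ℂ] ℂ) :
    ∃ g' : Y →L[ℂ] ℂ, φ (g.smulRight x0) = g'.smulRight y0 ∧ g' y0 = σ (g x0) := by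
  by_cases hg : g x0 = 0
  swap
  · exact N.rank_aux g hg
  rw [hg, map_zero]
  have main : ∃ g' : Y →L[ℂ] ℂ, φ (g.smulRight x0) = g'.smulRight y0 := by
    rcases PP_class N.hy0 (N.PP_map (PP_rankone x0 g)) with h | ⟨d, g', h1, h2, h3⟩
    · exact h
    · by_cases hg0 : g = 0
      · refine ⟨0, ?_⟩
        rw [hg0]
        have e1 : (0 : X →L[ℂ] ℂ).smulRight x0 = 0 := by ext z; simp
        have e2 : (0 : Y →L[ℂ] ℂ).smulRight y0 = 0 := by ext z; simp
        rw [e1, e2, N.zero]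
      exfalso
      obtain ⟨z, hz⟩ : ∃ z, g z ≠ 0 := by
        by_contra hcon
        push Not at hcon
        exact hg0 (by ext z; simpa using hcon z)
      obtain ⟨g'', h4, -⟩ := N.symm.rank_aux g' (by rw [h1]; exact neg_ne_zero.2 h2)
      have h5 : g'.smulRight y0 = φ (g.smulRight x0) + (-d) • (1 : Y →L[ℂ] Y) := by
        rw [h3]; module
      rw [h5, N.symm.shift (φ (g.smulRight x0)) (-d), Equiv.symm_apply_apply] at h4
      have h6 := congrArg (fun A : X →L[ℂ] X => A z) h4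
      simp only [add_apply, smul_apply, one_apply_eq_self,
        ContinuousLinearMap.smulRight_apply] at h6
      have h7 : σ.symm (-d) • z = (g'' z - g z) • x0 := by
        rw [sub_smul, ← h6]; abel
      have h8 := congrArg g h7
      rw [map_smul, map_smul, smul_eq_mul, smul_eq_mul, hg, mul_zero] at h8
      rcases mul_eq_zero.1 h8 with h9 | h9
      · rw [map_eq_zero_iff _ σ.symm.injective] at h9
        exact h2 (neg_eq_zero.1 h9)
      · exact hz h9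
  obtain ⟨g', hg'⟩ := main
  refine ⟨g', hg', ?_⟩
  by_contra hne
  obtain ⟨g'', h1, h2⟩ := N.symm.rank_aux g' hne
  rw [← hg', Equiv.symm_apply_apply] at h1
  have := smulRight_inj N.hx0 h1
  rw [← this, hg] at h2
  have h3 := h2.symm
  rw [map_eq_zero_iff _ σ.symm.injective] at h3
  exact hne h3

end Nm

end Pool.Agent.H296.IL
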