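import Pool.Agent.H296.IL.Pres

open scoped ENNReal NNReal
open Metric Set

namespace Pool.Agent.H296.IL

variable {X : Type*} [NormedAddCommGroup X] [NormedSpace ℂ X]
variable {Y : Type*} [NormedAddCommGroup Y] [NormedSpace ℂ Y]

lemma uniq {u v : X} (hu : u ≠ 0) (h : ∀ g : X →L[ℂ] ℂ, g u = 1 → g v = 1) : v = u := by
  rw [← sub_eq_zero]
  exact eq_zero_of_dual hu fun f hf => by rw [map_sub, hf, h f hf, sub_self]

lemma eq_of_dual {u v : X} (h : ∀ g : X →L[ℂ] ℂ, g u = g v) : u = v := by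
  rw [← sub_eq_zero]
  by_contra hne
  obtain ⟨f, hf⟩ := SeparatingDual.exists_eq_one (R := ℂ) hne
  rw [map_sub, h f, sub_self] at hf
  exact zero_ne_one hf

/-- an injective operator with periodic orbit sending `x` to `x0` -/
lemma swap_exists {x0 x : X} (hx0 : x0 ≠ 0) (hx : x ≠ 0) :
    ∃ T : X →L[ℂ] X, Function.Injective T ∧ T x = x0 ∧ 0 < iota T x0 := by
  by_cases h : ∃ a : ℂ, x = a • x0
  · obtain ⟨a, rfl⟩ := h
    have ha : a ≠ 0 := by rintro rfl; simp at hx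
    refine ⟨a⁻¹ • (1 : X →L[ℂ] X), ?_, ?_, ?_⟩
    · intro u v huv
      simp only [smul_apply, one_apply_eq_self] at huv
      exact smul_right_injective X (inv_ne_zero ha) huv
    · simp [smul_smul, mul_inv_cancel₀ ha]
    · exact iota_pos_of_eigen (a := a⁻¹) (by simp) (inv_ne_zero ha)
  · push Not at h
    obtain ⟨e, he0, he1⟩ := dual2 hx0 h (-1) 1
    set T : X →L[ℂ] X := 1 - e.smulRight (x - x0) with hT
    have hTz : ∀ z, T z = z - e z • (x - x0) := fun z => by simp [hT]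
    have hTT : ∀ z, T (T z) = z := by
      intro z
      rw [hTz (T z), hTz z, map_sub, map_smul, map_sub, he0, he1]
      simp only [smul_eq_mul]
      module
    refine ⟨T, Function.LeftInverse.injective hTT, ?_, ?_⟩
    · rw [hTz, he1]; module
    · exact iota_pos_of_quad (a := 1) (b := 0) (by rw [hTT]; simp) one_ne_zero

namespace Nm

variable {σ : ℂ ≃+* ℂ} {x0 : X} {y0 : Y} {φ : (X →L[ℂ] X) ≃ (Y →L[ℂ] Y)}
variable [CompleteSpace X] [CompleteSpace Y]

/-- The induced map on functionals. -/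
noncomputable def tau (N : Nm σ x0 y0 φ) (g : X →L[ℂ] ℂ) : Y →L[ℂ] ℂ := (N.rank g).choose

lemma tau_spec (N : Nm σ x0 y0 φ) (g : X →L[ℂ] ℂ) :
    φ (g.smulRight x0) = (N.tau g).smulRight y0 := (N.rank g).choose_spec.1

lemma tau_y0 (N : Nm σ x0 y0 φ) (g : X →L[ℂ] ℂ) : N.tau g y0 = σ (g x0) :=
  (N.rank g).choose_spec.2

lemma symm_tau_tau (N : Nm σ x0 y0 φ) (g : X →L[ℂ] ℂ) : N.symm.tau (N.tau g) = g := by
  have h1 := N.symm.tau_spec (N.tau g)
  rw [← N.tau_spec, Equiv.symm_apply_apply] at h1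
  exact (smulRight_inj N.hx0 h1).symm

lemma tau_symm_tau (N : Nm σ x0 y0 φ) (g : Y →L[ℂ] ℂ) : N.tau (N.symm.tau g) = g :=
  N.symm.symm_tau_tau g

lemma sol_exists (N : Nm σ x0 y0 φ) {T : X →L[ℂ] X} (hT : 0 < iota T x0)
    (hinj : Function.Injective T) {x : X} (hx : T x = x0) :
    ∃ y, φ T y = y0 ∧ ∀ g : X →L[ℂ] ℂ, g x = 1 → N.tau g y = 1 := by
  have h1 : 0 < iota (φ T) y0 := by rw [N.one]; exact hT
  obtain ⟨y, hy, hyg⟩ := rankone_pert h1
  refine ⟨y, hy, fun g hg => hyg _ ?_⟩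
  rw [← N.tau_spec, N.sub]
  exact rankone_inj hinj hx g hg

lemma hyper1 (N : Nm σ x0 y0 φ) {x : X} (hx : x ≠ 0) :
    ∃ y, y ≠ 0 ∧ ∀ g : X →L[ℂ] ℂ, g x = 1 → N.tau g y = 1 := by
  obtain ⟨T, h1, h2, h3⟩ := swap_exists N.hx0 hx
  obtain ⟨y, hy, hyg⟩ := N.sol_exists h3 h1 h2
  refine ⟨y, ?_, hyg⟩
  rintro rfl
  rw [map_zero] at hy
  exact N.hy0 hy.symm

lemma hyper (N : Nm σ x0 y0 φ) {x : X} (hx : x ≠ 0) :
    ∃ y, y ≠ 0 ∧ ∀ g : X →L[ℂ] ℂ, g x = 1 ↔ N.tau g y = 1 := by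
  obtain ⟨y, hy0, hy⟩ := N.hyper1 hx
  obtain ⟨x', hx'0, hx'⟩ := N.symm.hyper1 hy0
  have hxx : x' = x := by
    refine uniq hx fun g hg => ?_
    have := hx' _ (hy g hg)
    rwa [symm_tau_tau] at this
  refine ⟨y, hy0, fun g => ⟨hy g, fun h => ?_⟩⟩
  have := hx' _ h
  rwa [symm_tau_tau, hxx] at this

open Classical in
/-- The induced map on vectors. -/
noncomputable def rho (N : Nm σ x0 y0 φ) (x : X) : Y :=
  if hx : x = 0 then 0 else (N.hyper hx).choose

lemma rho_zero (N : Nm σ x0 y0 φ) : N.rho 0 = 0 := by simp [rho]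

lemma rho_ne (N : Nm σ x0 y0 φ) {x : X} (hx : x ≠ 0) : N.rho x ≠ 0 := by
  unfold rho; rw [dif_neg hx]; exact (N.hyper hx).choose_spec.1

lemma rho_spec (N : Nm σ x0 y0 φ) {x : X} (hx : x ≠ 0) (g : X →L[ℂ] ℂ) :
    g x = 1 ↔ N.tau g (N.rho x) = 1 := by
  unfold rho; rw [dif_neg hx]; exact (N.hyper hx).choose_spec.2 g

lemma symm_rho_rho (N : Nm σ x0 y0 φ) (x : X) : N.symm.rho (N.rho x) = x := by
  by_cases hx : x = 0
  · rw [hx, rho_zero, rho_zero]
  · refine uniq hx fun g hg => ?_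
    have h1 := (N.rho_spec hx g).1 hg
    have h2 := (N.symm.rho_spec (N.rho_ne hx) (N.tau g)).1 h1
    rwa [symm_tau_tau] at h2

lemma rho_symm_rho (N : Nm σ x0 y0 φ) (y : Y) : N.rho (N.symm.rho y) = y :=
  N.symm.symm_rho_rho y

lemma rho_eq (N : Nm σ x0 y0 φ) {x : X} (hx : x ≠ 0) {y : Y}
    (h : ∀ g : X →L[ℂ] ℂ, g x = 1 → N.tau g y = 1) : y = N.rho x := by
  refine uniq (N.rho_ne hx) fun g' hg' => ?_
  have h1 := h (N.symm.tau g') ((N.rho_spec hx _).2 (by rw [tau_symm_tau]; exact hg'))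
  rwa [tau_symm_tau] at h1

lemma par (N : Nm σ x0 y0 φ) {v v' : X} (hv : v ≠ 0) (h : ∀ a : ℂ, v' ≠ a • v) :
    ∀ a : ℂ, N.rho v' ≠ a • N.rho v := by
  intro a ha
  have hv' : v' ≠ 0 := by rintro rfl; exact h 0 (by simp)
  obtain ⟨g, h1, h2⟩ := dual2 hv h 1 1
  have e1 := (N.rho_spec hv g).1 h1
  have e2 := (N.rho_spec hv' g).1 h2
  rw [ha, map_smul, e1, smul_eq_mul, mul_one] at e2
  rw [e2, one_smul] at ha
  have h3 := congrArg N.symm.rho ha
  rw [symm_rho_rho, symm_rho_rho] at h3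
  exact h 1 (by rw [h3, one_smul])

lemma zero_aux (N : Nm σ x0 y0 φ) {v : X} {g : X →L[ℂ] ℂ} (hg : g v ≠ 0) :
    N.tau g (N.rho v) ≠ 0 := by
  have hv : v ≠ 0 := by rintro rfl; simp at hg
  have hv' : (g v)⁻¹ • v ≠ 0 := smul_ne_zero (inv_ne_zero hg) hv
  have h1 := (N.rho_spec hv' g).1 (by simp [hg])
  obtain ⟨a, ha⟩ : ∃ a : ℂ, N.rho ((g v)⁻¹ • v) = a • N.rho v := by
    by_contra hcon
    push Not at hcon
    have := N.symm.par (N.rho_ne hv) hcon (g v)⁻¹
    rw [symm_rho_rho, symm_rho_rho] at this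
    exact this rfl
  intro h0
  rw [ha, map_smul, h0, smul_zero] at h1
  exact zero_ne_one h1

lemma zero_iff (N : Nm σ x0 y0 φ) (v : X) (g : X →L[ℂ] ℂ) :
    g v = 0 ↔ N.tau g (N.rho v) = 0 := by
  constructor
  · intro h
    by_contra hne
    have := N.symm.zero_aux hne
    rw [symm_tau_tau, symm_rho_rho] at this
    exact this h
  · intro h
    by_contra hne
    exact N.zero_aux hne h

lemma rho_smul_x0 (N : Nm σ x0 y0 φ) (c : ℂ) : N.rho (c • x0) = σ c • y0 := by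
  by_cases hc : c = 0
  · rw [hc]; simp [rho_zero]
  · symm
    refine N.rho_eq (smul_ne_zero hc N.hx0) fun g hg => ?_
    rw [map_smul, N.tau_y0, smul_eq_mul, ← map_mul]
    rw [map_smul, smul_eq_mul] at hg
    rw [hg, map_one]

lemma rho_x0 (N : Nm σ x0 y0 φ) : N.rho x0 = y0 := by
  have := N.rho_smul_x0 1
  simpa using this

lemma rho_add_x0 (N : Nm σ x0 y0 φ) {x : X} (hx : ∀ a : ℂ, x ≠ a • x0) (s : ℂ) :
    N.rho (x + s • x0) = N.rho x + σ s • y0 := by
  have hx0 := N.hx0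
  have hx' : x ≠ 0 := by rintro rfl; exact hx 0 (by simp)
  by_cases hs : s = 0
  · rw [hs]; simp
  have hxs : x + s • x0 ≠ 0 := by
    intro h
    exact hx (-s) (by rw [neg_smul]; exact eq_neg_of_add_eq_zero_left h)
  have hind : ∀ a : ℂ, N.rho x ≠ a • y0 := by
    have := N.par hx0 hx
    rwa [N.rho_x0] at this
  set y := N.rho x with hy
  set ys := N.rho (x + s • x0) with hys
  have hval : ∀ g' : Y →L[ℂ] ℂ, g' y0 = 0 → g' y = 1 → g' (ys - y) = 0 := by
    intro g' h0 h1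
    have e0 : N.symm.tau g' x0 = 0 := by
      rw [N.symm.tau_y0, h0, map_zero]
    have e1 : N.symm.tau g' x = 1 := (N.rho_spec hx' _).2 (by rw [tau_symm_tau]; exact h1)
    have e2 : N.symm.tau g' (x + s • x0) = 1 := by rw [map_add, map_smul, e0, e1]; simp
    have e3 := (N.rho_spec hxs _).1 e2
    rw [tau_symm_tau] at e3
    rw [map_sub, h1, e3, sub_self]
  obtain ⟨β, hβ⟩ : ∃ β : ℂ, ys - y = β • y0 := by
    by_contra hcon
    push Not at hcon
    by_cases h3 : ∃ a b : ℂ, ys - y = a • y0 + b • y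
    · obtain ⟨a, b, hab⟩ := h3
      obtain ⟨g', h0, h1⟩ := dual2 N.hy0 hind 0 1
      have := hval g' h0 h1
      rw [hab, map_add, map_smul, map_smul, h0, h1] at this
      have hb : b = 0 := by simpa using this
      exact hcon a (by rw [hab, hb]; simp)
    · push Not at h3
      obtain ⟨g', h0, h1, h2⟩ := dual3 N.hy0 hind h3 0 1 1
      have := hval g' h0 h1
      rw [h2] at this
      exact one_ne_zero this
  have hys' : ys = y + β • y0 := by rw [← hβ]; abel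
  obtain ⟨g, h0, h1⟩ := dual2 hx0 hx s⁻¹ 0
  have e1 : g (x + s • x0) = 1 := by
    rw [map_add, map_smul, h0, h1, zero_add, smul_eq_mul, mul_inv_cancel₀ hs]
  have e2 := (N.rho_spec hxs g).1 e1
  have e3 := (N.zero_iff x g).1 h1
  have e4 : N.tau g ys = 1 := e2
  have e6 : N.tau g y = 0 := e3
  rw [hys', map_add, map_smul, e6, N.tau_y0, h0] at e4
  have e5 : β * σ s⁻¹ = 1 := by
    simpa using e4
  have e7 : β = σ s := by
    rw [map_inv₀] at e5
    have hσs : σ s ≠ 0 := by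
      rw [Ne, map_eq_zero_iff _ σ.injective]; exact hs
    field_simp at e5
    exact e5
  rw [hys', e7]

lemma K1 (N : Nm σ x0 y0 φ) {g : X →L[ℂ] ℂ} (hg : g x0 ≠ 0) (x : X) :
    N.tau g (N.rho x) = σ (g x) := by
  by_cases h : ∃ c : ℂ, x = c • x0
  · obtain ⟨c, rfl⟩ := h
    rw [rho_smul_x0, map_smul, N.tau_y0, smul_eq_mul, ← map_mul, map_smul, smul_eq_mul]
  · push Not at h
    set s : ℂ := (1 - g x) / g x0 with hs
    have hxs : x + s • x0 ≠ 0 := by
      intro h1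
      exact h (-s) (by rw [neg_smul]; exact eq_neg_of_add_eq_zero_left h1)
    have e1 : g (x + s • x0) = 1 := by
      rw [map_add, map_smul, smul_eq_mul, hs]; field_simp; ring
    have e2 := (N.rho_spec hxs g).1 e1
    rw [N.rho_add_x0 h, map_add, map_smul, N.tau_y0, smul_eq_mul, ← map_mul] at e2
    have e3 : s * g x0 = 1 - g x := by rw [hs]; field_simp
    rw [e3, map_sub, map_one] at e2
    linear_combination e2

lemma K (N : Nm σ x0 y0 φ) (g : X →L[ℂ] ℂ) (x : X) :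
    N.tau g (N.rho x) = σ (g x) := by
  by_cases hg : g x = 0
  · rw [hg, map_zero]; exact (N.zero_iff x g).1 hg
  have hx : x ≠ 0 := by rintro rfl; simp at hg
  set c := g x with hc
  have hx' : c⁻¹ • x ≠ 0 := smul_ne_zero (inv_ne_zero hg) hx
  have e1 := (N.rho_spec hx' g).1 (by rw [map_smul, ← hc, smul_eq_mul, inv_mul_cancel₀ hg])
  have e2 : N.rho (c⁻¹ • x) = σ c⁻¹ • N.rho x := by
    rw [← sub_eq_zero]
    refine eq_zero_of_dual N.hy0 fun g' hg' => ?_
    have h1 : N.symm.tau g' x0 ≠ 0 := by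
      rw [N.symm.tau_y0, hg', map_one]; exact one_ne_zero
    have h2 := N.K1 h1 (c⁻¹ • x)
    have h3 := N.K1 h1 x
    rw [tau_symm_tau] at h2 h3
    rw [map_sub, map_smul, h2, h3, map_smul, smul_eq_mul, smul_eq_mul, map_mul, sub_self]
  rw [e2, map_smul, smul_eq_mul, map_inv₀] at e1
  have hσc : σ c ≠ 0 := by
    rw [Ne, map_eq_zero_iff _ σ.injective]; exact hg
  field_simp at e1
  exact e1

lemma rho_add (N : Nm σ x0 y0 φ) (x x' : X) : N.rho (x + x') = N.rho x + N.rho x' := by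
  refine eq_of_dual fun g' => ?_
  have h := fun z => N.K (N.symm.tau g') z
  simp only [tau_symm_tau] at h
  rw [map_add, h, h, h, map_add, map_add]

lemma rho_smul (N : Nm σ x0 y0 φ) (c : ℂ) (x : X) : N.rho (c • x) = σ c • N.rho x := by
  refine eq_of_dual fun g' => ?_
  have h := fun z => N.K (N.symm.tau g') z
  simp only [tau_symm_tau] at h
  rw [map_smul, h, h, map_smul, smul_eq_mul, smul_eq_mul, map_mul]

lemma map_of_inj (N : Nm σ x0 y0 φ) {T : X →L[ℂ] X} (hT : 0 < iota T x0)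
    (hinj : Function.Injective T) {x : X} (hx : T x = x0) : φ T (N.rho x) = y0 := by
  have hx' : x ≠ 0 := by
    rintro rfl
    rw [map_zero] at hx
    exact N.hx0 hx.symm
  obtain ⟨y, hy, hyg⟩ := N.sol_exists hT hinj hx
  rw [← N.rho_eq hx' hyg]; exact hy

end Nm

end Pool.Agent.H296.IL
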